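import Pool.Agent.H41.CP.Stmts

set_option autoImplicit false

/-! # S_DOUBLE of project CP (MP_36eb6d_co) -/

namespace Pool.Agent.H860.CPDbl
open Pool.Agent.H41.CP

theorem img {f : P6} {S T : Finset (Fin 6)} (hS : S.card = 4) (hT : T.card = 4)
    (h : ∀ x ∈ S, f x ∈ T) : S.image f = T := by
  refine Finset.eq_of_subset_of_card_le ?_ ?_
  · intro y hy
    obtain ⟨x, hx, rfl⟩ := Finset.mem_image.1 hy
    exact h x hx
  · rw [Finset.card_image_of_injective _ f.injective, hS, hT]

/-- Five different elements do not fit in four places. -/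
theorem five {T : Finset (Fin 6)} (hT : T.card = 4) {a b c d e : Fin 6} (ha : a ∈ T) (hb : b ∈ T)
    (hc : c ∈ T) (hd : d ∈ T) (he : e ∈ T) (hab : a ≠ b) (hac : a ≠ c) (hbc : b ≠ c)
    (hda : d ≠ a) (hdb : d ≠ b) (hdc : d ≠ c) (hea : e ≠ a) (heb : e ≠ b) (hec : e ≠ c) :
    d = e := by
  by_contra hde
  have hsub : ({a, b, c, d, e} : Finset (Fin 6)) ⊆ T := by
    intro x hx
    simp only [Finset.mem_insert, Finset.mem_singleton] at hx
    rcases hx with rfl | rfl | rfl | rfl | rfl <;> assumption
  have hc5 : ({a, b, c, d, e} : Finset (Fin 6)).card = 5 := by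
    rw [Finset.card_insert_of_notMem, Finset.card_insert_of_notMem,
      Finset.card_insert_of_notMem, Finset.card_insert_of_notMem, Finset.card_singleton]
    · simpa using hde
    · simpa using ⟨hdc.symm, hec.symm⟩
    · simpa using ⟨hbc, hdb.symm, heb.symm⟩
    · simpa using ⟨hab, hac, hda.symm, hea.symm⟩
  have := Finset.card_le_card hsub
  omega

/-- The main step: `g` is the fourth value on `S`. -/
theorem fourth {F : Fin 3 → P6} {g : P6} {S T S' T' X : Finset (Fin 6)} (hQ : Q F S T)
    (hQ' : Q ![g, F 1, F 2] S' T') (hXS : X ⊆ S) (hX3 : X.card = 3)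
    (hX : ∀ x ∈ X, g x ∈ T ∧ ∀ i, g x ≠ F i x) : ∀ x ∈ S, g x ∈ T ∧ ∀ i, g x ≠ F i x := by
  obtain ⟨hS, hT, hF⟩ := hQ
  obtain ⟨hS', hT', hF'⟩ := hQ'
  have e1 : S.image (F 1) = T := img hS hT fun x hx => (hF x hx).1 1
  have e2 : S.image (F 2) = T := img hS hT fun x hx => (hF x hx).1 2
  have e1' : S'.image (F 1) = T' := img hS' hT' fun x hx => (hF' x hx).1 1
  have e2' : S'.image (F 2) = T' := img hS' hT' fun x hx => (hF' x hx).1 2
  have i1 : (S ∩ S').image (F 1) = T ∩ T' := by
    rw [Finset.image_inter _ _ (F 1).injective, e1, e1']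
  have hcI : (T ∩ T').card = (S ∩ S').card := by
    rw [← i1, Finset.card_image_of_injective _ (F 1).injective]
  have hu : (S ∪ S').card + (S ∩ S').card = 8 := by
    rw [Finset.card_union_add_card_inter, hS, hS']
  have hu6 : (S ∪ S').card ≤ 6 := by simpa using Finset.card_le_univ (S ∪ S')
  have hle : (S ∩ S').card ≤ 4 := hS ▸ Finset.card_le_card Finset.inter_subset_left
  have hSS : S' = S := by
    have h3 : (S ∩ S').card ≠ 3 := by
      intro h3
      have hz : (S \ S').card = 1 := by
        have := Finset.card_sdiff_add_card_inter S S'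
        omega
      have hw : (T \ T').card = 1 := by
        have := Finset.card_sdiff_add_card_inter T T'
        omega
      obtain ⟨z, hz⟩ := Finset.card_eq_one.1 hz
      obtain ⟨w, hw⟩ := Finset.card_eq_one.1 hw
      have hzm : z ∈ S \ S' := by rw [hz]; exact Finset.mem_singleton_self z
      have j1 : (S \ S').image (F 1) = T \ T' := by
        rw [Finset.image_sdiff _ _ (F 1).injective, e1, e1']
      have j2 : (S \ S').image (F 2) = T \ T' := by
        rw [Finset.image_sdiff _ _ (F 2).injective, e2, e2']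
      have k1 : F 1 z = w := by
        have : F 1 z ∈ T \ T' := by rw [← j1]; exact Finset.mem_image_of_mem _ hzm
        rwa [hw, Finset.mem_singleton] at this
      have k2 : F 2 z = w := by
        have : F 2 z ∈ T \ T' := by rw [← j2]; exact Finset.mem_image_of_mem _ hzm
        rwa [hw, Finset.mem_singleton] at this
      have := (hF z (Finset.mem_sdiff.1 hzm).1).2 (show F 1 z = F 2 z by rw [k1, k2])
      exact absurd this (by decide)
    have h2 : (S ∩ S').card ≠ 2 := by
      intro h2
      have hne : (X ∩ (S ∩ S')).Nonempty := by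
        rw [← Finset.card_pos]
        have a1 := Finset.card_union_add_card_inter X (S ∩ S')
        have a2 : (X ∪ (S ∩ S')).card ≤ 4 :=
          hS ▸ Finset.card_le_card (Finset.union_subset hXS Finset.inter_subset_left)
        omega
      obtain ⟨x, hx⟩ := hne
      rw [Finset.mem_inter, Finset.mem_inter] at hx
      obtain ⟨hxX, hxS, hxS'⟩ := hx
      have inj := (hF' x hxS').2
      have m0 : g x ∈ T ∩ T' := Finset.mem_inter.2 ⟨(hX x hxX).1, (hF' x hxS').1 0⟩
      have m1 : F 1 x ∈ T ∩ T' := Finset.mem_inter.2 ⟨(hF x hxS).1 1, (hF' x hxS').1 1⟩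
      have m2 : F 2 x ∈ T ∩ T' := Finset.mem_inter.2 ⟨(hF x hxS).1 2, (hF' x hxS').1 2⟩
      have n01 : g x ≠ F 1 x := (hX x hxX).2 1
      have n02 : g x ≠ F 2 x := (hX x hxX).2 2
      have n12 : F 1 x ≠ F 2 x := fun h =>
        absurd ((hF x hxS).2 (show F 1 x = F 2 x from h)) (by decide)
      have hsub : ({g x, F 1 x, F 2 x} : Finset (Fin 6)) ⊆ T ∩ T' := by
        intro y hy
        simp only [Finset.mem_insert, Finset.mem_singleton] at hy
        rcases hy with rfl | rfl | rfl <;> assumption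
      have hc3 : ({g x, F 1 x, F 2 x} : Finset (Fin 6)).card = 3 := by
        rw [Finset.card_insert_of_notMem, Finset.card_insert_of_notMem, Finset.card_singleton]
        · simpa using n12
        · simpa using ⟨n01, n02⟩
      have := Finset.card_le_card hsub
      omega
    have h4 : (S ∩ S').card = 4 := by omega
    have hA : S ∩ S' = S := Finset.eq_of_subset_of_card_le Finset.inter_subset_left (by omega)
    have hsub : S ⊆ S' := Finset.inter_eq_left.1 hA
    exact (Finset.eq_of_subset_of_card_le hsub (by omega)).symm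
  subst hSS
  have hTT : T' = T := by rw [← e1, ← e1']
  subst hTT
  intro y hy
  refine ⟨(hF' y hy).1 0, ?_⟩
  have n1 : g y ≠ F 1 y := fun h =>
    absurd ((hF' y hy).2 (a₁ := 0) (a₂ := 1) (by simpa using h)) (by decide)
  have n2 : g y ≠ F 2 y := fun h =>
    absurd ((hF' y hy).2 (a₁ := 0) (a₂ := 2) (by simpa using h)) (by decide)
  have n0 : g y ≠ F 0 y := by
    intro h0
    have hyX : y ∉ X := fun hyX => (hX y hyX).2 0 h0
    have hXe : insert y X = S' := by
      refine Finset.eq_of_subset_of_card_le ?_ ?_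
      · exact Finset.insert_subset hy hXS
      · rw [Finset.card_insert_of_notMem hyX, hX3, hS']
    -- the elements of `S` over `c`
    have hc : g y ∈ T' := (hF' y hy).1 0
    obtain ⟨u, hu, hu1⟩ : ∃ u ∈ S', F 1 u = g y := by
      have : g y ∈ S'.image (F 1) := by rw [e1]; exact hc
      simpa using this
    obtain ⟨v, hv, hv2⟩ : ∃ v ∈ S', F 2 v = g y := by
      have : g y ∈ S'.image (F 2) := by rw [e2]; exact hc
      simpa using this
    -- a fourth element of `S`
    obtain ⟨x, hx, hxn⟩ : ∃ x ∈ S', x ∉ ({y, u, v} : Finset (Fin 6)) := by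
      by_contra hcon
      push Not at hcon
      have h1 : S'.card ≤ ({y, u, v} : Finset (Fin 6)).card := Finset.card_le_card hcon
      have h2 : ({y, u, v} : Finset (Fin 6)).card ≤ 3 := Finset.card_le_three
      omega
    simp only [Finset.mem_insert, Finset.mem_singleton, not_or] at hxn
    obtain ⟨xy, xu, xv⟩ := hxn
    have hxX : x ∈ X := by
      have : x ∈ insert y X := by rw [hXe]; exact hx
      exact (Finset.mem_insert.1 this).resolve_left xy
    have d01 : F 0 x ≠ F 1 x := fun h =>
      absurd ((hF x hx).2 (show F 0 x = F 1 x from h)) (by decide)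
    have d02 : F 0 x ≠ F 2 x := fun h =>
      absurd ((hF x hx).2 (show F 0 x = F 2 x from h)) (by decide)
    have d12 : F 1 x ≠ F 2 x := fun h =>
      absurd ((hF x hx).2 (show F 1 x = F 2 x from h)) (by decide)
    have := five hT ((hF x hx).1 0) ((hF x hx).1 1) ((hF x hx).1 2) (hX x hxX).1 hc d01 d02 d12
      ((hX x hxX).2 0) ((hX x hxX).2 1) ((hX x hxX).2 2)
      (by rw [h0]; exact fun h => xy ((F 0).injective h).symm)
      (by rw [← hu1]; exact fun h => xu ((F 1).injective h).symm)
      (by rw [← hv2]; exact fun h => xv ((F 2).injective h).symm)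
    exact xy (g.injective this)
  intro i
  fin_cases i
  · exact n0
  · exact n1
  · exact n2

theorem dbl (hk : S_KILLER) (hqb : S_QB) (hf3 : S_F3) : S_DOUBLE := by
  intro H F hf
  by_contra hcon
  push Not at hcon
  obtain ⟨S, T, hQ⟩ := hk H F hf fun g hg => (hcon g hg).1
  have key : ∀ g, Av H g → ∀ x ∈ S, g x ∈ T ∧ ∀ i, g x ≠ F i x := by
    intro g hg
    obtain ⟨hb, S', T', hQ'⟩ := hcon g hg
    obtain ⟨X, hXS, hX3, hX⟩ := hqb F g S T hQ hb
    exact fourth hQ hQ' hXS hX3 hX
  obtain ⟨f, hf⟩ := hf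
  obtain ⟨X, hXS, hX3⟩ := Finset.exists_subset_card_eq (s := S) (n := 3) (by rw [hQ.1]; omega)
  obtain ⟨g, hg, x, hx, hne⟩ := hf3 H f hf X hX3
  have hxS := hXS hx
  have kf := key f hf x hxS
  have kg := key g hg x hxS
  have hFx := hQ.2.2 x hxS
  have d01 : F 0 x ≠ F 1 x := fun h =>
    absurd (hFx.2 (show F 0 x = F 1 x from h)) (by decide)
  have d02 : F 0 x ≠ F 2 x := fun h =>
    absurd (hFx.2 (show F 0 x = F 2 x from h)) (by decide)
  have d12 : F 1 x ≠ F 2 x := fun h =>
    absurd (hFx.2 (show F 1 x = F 2 x from h)) (by decide)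
  exact hne (five hQ.2.1 (hFx.1 0) (hFx.1 1) (hFx.1 2) kg.1 kf.1 d01 d02 d12
    (kg.2 0) (kg.2 1) (kg.2 2) (kf.2 0) (kf.2 1) (kf.2 2))

end Pool.Agent.H860.CPDbl
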